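import Pool.Agent.Y106.Rk.Dual
import Pool.Agent.Y106.Gen.Main

/-!
# The adjoint of an operator for the intersection form
-/

open CategoryTheory AlgebraicGeometry Finset

set_option linter.unusedSectionVars false

universe u v

namespace Pool.Agent.Y106.Rk

open Pool.Agent.H914 Pool.Agent.H447 Pool.Agent.W537 Pool.Agent.Y106.One Pool.Agent.Y106.Gen
  VarClass Obj WeilCohomology

variable {k : Type u} [Field k] {𝒱 : VarClass k} {ops : CycleOps 𝒱}
  {W : WeilCohomology.{u, v} ops} {X Y : 𝒱.Obj}

/-- The isomorphism `b ↦ (a ↦ tr(a b))` from `H(X)` to its dual. -/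
noncomputable def dualEquiv (W : WeilCohomology.{u, v} ops) (X : 𝒱.Obj) :
    W.H X ≃ₗ[W.K] Module.Dual W.K (W.H X) :=
  LinearEquiv.ofInjectiveOfFinrankEq (bil W X).flip
    (by
      rw [← LinearMap.ker_eq_bot, LinearMap.ker_eq_bot']
      intro b hb
      apply nondeg_right
      intro a
      exact congrArg (fun F => F a) hb)
    (Subspace.dual_finrank_eq).symm

lemma dualEquiv_apply (a b : W.H X) : dualEquiv W X b a = W.tr X (a * b) := rfl

/-- The adjoint for the intersection form. -/
noncomputable def adj (W : WeilCohomology.{u, v} ops) (X : 𝒱.Obj) :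
    Module.End W.K (W.H X) →ₗ[W.K] Module.End W.K (W.H X) where
  toFun u := (dualEquiv W X).symm.toLinearMap ∘ₗ u.dualMap ∘ₗ (dualEquiv W X).toLinearMap
  map_add' u v := by
    apply LinearMap.ext
    intro a
    simp [LinearMap.dualMap]
  map_smul' c u := by
    apply LinearMap.ext
    intro a
    simp [LinearMap.dualMap]

lemma tr_adj (u : Module.End W.K (W.H X)) (a b : W.H X) :
    W.tr X (a * adj W X u b) = W.tr X (u a * b) := by
  rw [← dualEquiv_apply, ← dualEquiv_apply]
  have : dualEquiv W X (adj W X u b) = u.dualMap (dualEquiv W X b) := by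
    change dualEquiv W X ((dualEquiv W X).symm (u.dualMap (dualEquiv W X b))) = _
    rw [LinearEquiv.apply_symm_apply]
  rw [this]
  rfl

lemma adj_unique {u u' : Module.End W.K (W.H X)}
    (h : ∀ a b, W.tr X (u a * b) = W.tr X (a * u' b)) : adj W X u = u' := by
  apply LinearMap.ext
  intro b
  rw [← sub_eq_zero]
  apply nondeg_right
  intro a
  rw [mul_sub, map_sub, tr_adj, h, sub_self]

lemma adj_mul (u v : Module.End W.K (W.H X)) : adj W X (u * v) = adj W X v * adj W X u := by
  apply adj_unique
  intro a b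
  rw [Module.End.mul_apply, Module.End.mul_apply, tr_adj, tr_adj]

lemma trace_adj (u : Module.End W.K (W.H X)) :
    LinearMap.trace W.K (W.H X) (adj W X u) = LinearMap.trace W.K (W.H X) u := by
  have h1 : adj W X u = (dualEquiv W X).symm.conj u.dualMap := rfl
  rw [h1, LinearMap.trace_conj']
  exact LinearMap.trace_transpose' u

lemma adj_kop {d : ℤ} {u : Module.End W.K (W.H X)} (hu : u ∈ KOp W X X d) :
    adj W X u ∈ KOp W X X d := by
  obtain ⟨ψ, hψ, h⟩ := KOp.exists_adjoint hu
  rw [adj_unique h]
  exact KOp.cast hψ (by ring)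

lemma adj_proj {i j : ℕ} (hij : i + j = 2 * X.dim) :
    adj W X (proj (W.isInternal X) j) = proj (W.isInternal X) i := by
  apply adj_unique
  intro a b
  refine gr_induction (W.isInternal X) (p := fun a => W.tr X (proj (W.isInternal X) j a * b) =
    W.tr X (a * proj (W.isInternal X) i b)) ?_ ?_ a
  swap
  · intro a a' ha ha'
    rw [map_add, add_mul, add_mul, map_add, map_add, ha, ha']
  intro l a ha
  refine gr_induction (W.isInternal X) (p := fun b => W.tr X (proj (W.isInternal X) j a * b) =
    W.tr X (a * proj (W.isInternal X) i b)) ?_ ?_ b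
  swap
  · intro b b' hb hb'
    rw [map_add, mul_add, mul_add, map_add, map_add, hb, hb']
  intro m b hb
  by_cases hl : l = j
  · subst hl
    rw [proj_same _ ha]
    by_cases hm : m = i
    · subst hm
      rw [proj_same _ hb]
    · rw [proj_ne _ hb hm, mul_zero, map_zero, W.tr_eq_zero (W.mul_mem ha hb) (by omega)]
  · rw [proj_ne _ ha hl, zero_mul, map_zero]
    by_cases hm : m = i
    · subst hm
      rw [proj_same _ hb, W.tr_eq_zero (W.mul_mem ha hb) (by omega)]
    · rw [proj_ne _ hb hm, mul_zero, map_zero]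

end Pool.Agent.Y106.Rk
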