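import Mathlib.LinearAlgebra.Trace
import Mathlib.LinearAlgebra.Dual.Lemmas

/-!
# The trace pairing between two spaces of operators: definitions
-/

namespace Pool.Agent.Y106.Rk

/-- The linear form `a ↦ tr(p a)`. -/
noncomputable def trWith {K V : Type*} [Field K] [AddCommGroup V] [Module K V]
    (p : Module.End K V) : Module.End K V →ₗ[K] K :=
  LinearMap.trace K V ∘ₗ LinearMap.mulLeft K p

variable {K A : Type*} [Field K] [Ring A] [Algebra K A]

/-- The span of the operators `f c` for `c` in `S`. -/
def spanOps {C : Type*} [Ring C] [Algebra K C] (f : C → Module.End K A) (S : Submodule K C) :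
    Submodule K (Module.End K A) :=
  Submodule.span K (f '' S)

/-- The elements `a` such that `t(a b) = 0` for all `b` in `U`. -/
def leftRad (t : A →ₗ[K] K) (U : Submodule K A) : Submodule K A where
  carrier := {a | ∀ b ∈ U, t (a * b) = 0}
  add_mem' ha ha' b hb := by rw [add_mul, map_add, ha b hb, ha' b hb, add_zero]
  zero_mem' b _ := by rw [zero_mul, map_zero]
  smul_mem' c _ ha b hb := by rw [smul_mul_assoc, map_smul, ha b hb, smul_zero]

/-- The rank of the pairing `(a, b) ↦ t(a b)` between two spaces `U` and `U'`: the difference of the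
dimension of `U` and of the dimension of the space of the elements of `U` orthogonal to `U'`. -/
noncomputable def rankWith (t : A →ₗ[K] K) (U U' : Submodule K A) : ℕ :=
  Module.finrank K U - Module.finrank K (U ⊓ leftRad t U' : Submodule K A)

/-- An element `u` of `U` such that `t(z l u) = 0` for all `z` in `Z` satisfies `t(u) = 0`. -/
def Detects (t : A →ₗ[K] K) (l : A) (Z U : Submodule K A) : Prop :=
  ∀ u ∈ U, (∀ z ∈ Z, t (z * (l * u)) = 0) → t u = 0

end Pool.Agent.Y106.Rk
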