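import Mathlib
import Pool.Agent.Y106.Rk.PairDefs

/-!
# Two blocks of operators with the same dimensions modulo the radical of the trace form
-/

set_option linter.unusedSectionVars false

open Polynomial

namespace Pool.Agent.Y106.Rk

section Rank

variable {K : Type*} [Field K]

/-- Comparison of the ranks of two linear maps. -/
lemma finrank_range_le {M₁ M₂ D₁ D₂ : Type*} [AddCommGroup M₁] [Module K M₁] [AddCommGroup M₂]
    [Module K M₂] [AddCommGroup D₁] [Module K D₁] [AddCommGroup D₂] [Module K D₂]
    [Module.Finite K M₁] [Module.Finite K M₂] (Ψ : M₁ →ₗ[K] M₂) (φ₁ : M₁ →ₗ[K] D₁)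
    (φ₂ : M₂ →ₗ[K] D₂) (h : ∀ x, φ₂ (Ψ x) = 0 → φ₁ x = 0) :
    Module.finrank K (LinearMap.range φ₁) ≤ Module.finrank K (LinearMap.range φ₂) := by
  have h1 := φ₁.finrank_range_add_finrank_ker
  have h2 := (φ₂ ∘ₗ Ψ).finrank_range_add_finrank_ker
  have h3 : Module.finrank K (LinearMap.ker (φ₂ ∘ₗ Ψ)) ≤ Module.finrank K (LinearMap.ker φ₁) :=
    Submodule.finrank_mono (fun x hx => h x hx)
  have h4 : Module.finrank K (LinearMap.range (φ₂ ∘ₗ Ψ)) ≤
      Module.finrank K (LinearMap.range φ₂) :=
    Submodule.finrank_mono (LinearMap.range_comp_le_range _ _)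
  omega

end Rank

variable {K V : Type*} [Field K] [AddCommGroup V] [Module K V]

/-- The pairing `(a, b) ↦ tr(p a b)` between two spaces of operators. -/
noncomputable def pair (p : Module.End K V) (U U' : Submodule K (Module.End K V)) :
    U →ₗ[K] Module.Dual K U' :=
  ((LinearMap.mul K (Module.End K V)).compr₂ (trWith p)).compl₁₂ U.subtype U'.subtype

lemma pair_apply (p : Module.End K V) (U U' : Submodule K (Module.End K V)) (a : U) (b : U') :
    pair p U U' a b = LinearMap.trace K V (p * ((a : Module.End K V) * b)) := rfl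

/-- The rank of the pairing `(a, b) ↦ tr(p a b)`. -/
noncomputable def pairRank (p : Module.End K V) (U U' : Submodule K (Module.End K V)) : ℕ :=
  Module.finrank K (LinearMap.range (pair p U U'))

lemma pair_eq_zero_iff (p : Module.End K V) (U U' : Submodule K (Module.End K V)) (a : U) :
    pair p U U' a = 0 ↔ ∀ b ∈ U', LinearMap.trace K V (p * ((a : Module.End K V) * b)) = 0 := by
  constructor
  · intro h b hb
    have := congrArg (fun F => F (⟨b, hb⟩ : U')) h
    exact this
  · intro h
    apply LinearMap.ext
    intro b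
    exact h b b.2

/-- The two definitions of the rank. -/
lemma rankWith_eq [Module.Finite K V] (p : Module.End K V)
    (U U' : Submodule K (Module.End K V)) : rankWith (trWith p) U U' = pairRank p U U' := by
  have h1 := (pair p U U').finrank_range_add_finrank_ker
  have h2 : (LinearMap.ker (pair p U U')).map U.subtype = U ⊓ leftRad (trWith p) U' := by
    ext a
    constructor
    · rintro ⟨⟨x, hx⟩, hx', rfl⟩
      refine ⟨hx, ?_⟩
      rw [SetLike.mem_coe, LinearMap.mem_ker, pair_eq_zero_iff] at hx'
      exact hx'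
    · rintro ⟨ha, ha'⟩
      refine ⟨⟨a, ha⟩, ?_, rfl⟩
      rw [SetLike.mem_coe, LinearMap.mem_ker, pair_eq_zero_iff]
      exact ha'
  have h3 : Module.finrank K (U ⊓ leftRad (trWith p) U' : Submodule K (Module.End K V)) =
      Module.finrank K (LinearMap.ker (pair p U U')) := by
    rw [← h2]
    exact (Submodule.equivMapOfInjective _ U.injective_subtype _).finrank_eq.symm
  rw [rankWith, pairRank, h3]
  omega

/-- Blocks of operators, with units `p x`. -/
structure IsBlocks {ι : Type*} (A : ι → ι → Submodule K (Module.End K V))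
    (p : ι → Module.End K V) : Prop where
  one_mem : ∀ x, p x ∈ A x x
  mul_mem : ∀ {x y z} {a b : Module.End K V}, a ∈ A x y → b ∈ A y z → a * b ∈ A x z
  one_mul : ∀ {x y} {a : Module.End K V}, a ∈ A x y → p x * a = a
  mul_one : ∀ {x y} {a : Module.End K V}, a ∈ A x y → a * p y = a

/-- A pair of mutually inverse operators between direct summands. -/
structure IsSplit (U U' : Submodule K (Module.End K V)) (z w : Module.End K V) : Prop where
  left : z ∈ U
  right : w ∈ U'
  zwz : z * w * z = z
  wzw : w * z * w = w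

variable [CharZero K] [Module.Finite K V]

lemma trace_idem {e : Module.End K V} (he : e * e = e) :
    LinearMap.trace K V e = (Module.finrank K (LinearMap.range e) : K) :=
  (LinearMap.IsIdempotentElem.isProj_range e he).trace

/-- An operator with non-zero trace has a non-zero idempotent multiple. -/
lemma exists_idem {m : Module.End K V} (hm : LinearMap.trace K V m ≠ 0) :
    ∃ h : Module.End K V, h * m ≠ 0 ∧ (h * m) * (h * m) = h * m ∧
      (h * m) * h = h ∧ ∃ q : K[X], h = m * aeval m q := by
  -- Fitting: write the minimal polynomial as `X ^ k * g` with `g` prime to `X`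
  have hint : IsIntegral K m := Algebra.IsIntegral.isIntegral m
  have h0 : minpoly K m ≠ 0 := minpoly.ne_zero hint
  obtain ⟨g, hg, hgX⟩ := Polynomial.exists_eq_pow_rootMultiplicity_mul_and_not_dvd
    (minpoly K m) h0 0
  rw [C_0, sub_zero] at hg hgX
  generalize rootMultiplicity 0 (minpoly K m) = k at hg
  have hcop : IsCoprime (X ^ (k + 2)) g :=
    ((Polynomial.irreducible_X.coprime_iff_not_dvd).2 hgX).pow_left
  obtain ⟨a, b, hab⟩ := hcop
  have hzero : ∀ P : K[X], aeval m (P * (X ^ k * g)) = 0 := by
    intro P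
    rw [← hg, map_mul, minpoly.aeval, mul_zero]
  -- the idempotent is `a X ^ (k + 2)`
  have hEE : aeval m (a * X ^ (k + 2) * (a * X ^ (k + 2))) = aeval m (a * X ^ (k + 2)) := by
    have h1 : a * X ^ (k + 2) * (a * X ^ (k + 2)) =
        a * X ^ (k + 2) - (a * b * X ^ 2) * (X ^ k * g) := by
      have h2 : a * X ^ (k + 2) = 1 - b * g := by rw [← hab]; ring
      calc a * X ^ (k + 2) * (a * X ^ (k + 2)) = a * X ^ (k + 2) * (1 - b * g) := by rw [← h2]
        _ = a * X ^ (k + 2) - (a * b * X ^ 2) * (X ^ k * g) := by ring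
    rw [h1, map_sub, hzero, sub_zero]
  have hhm : aeval m (a * X ^ (k + 2) * (a * X ^ (k + 1))) * m =
      aeval m (a * X ^ (k + 2)) := by
    calc aeval m (a * X ^ (k + 2) * (a * X ^ (k + 1))) * m
        = aeval m (a * X ^ (k + 2) * (a * X ^ (k + 1))) * aeval m (X : K[X]) := by rw [aeval_X]
      _ = aeval m (a * X ^ (k + 2) * (a * X ^ (k + 2))) := by
          rw [← map_mul]; congr 1; ring
      _ = _ := hEE
  refine ⟨aeval m (a * X ^ (k + 2) * (a * X ^ (k + 1))), ?_, ?_, ?_, ?_⟩
  · rw [hhm]
    intro h
    apply hm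
    have hnil : IsNilpotent m := by
      refine ⟨k, ?_⟩
      have h1 : aeval m (b * g) = 1 := by
        have h2 : b * g = 1 - a * X ^ (k + 2) := by rw [← hab]; ring
        rw [h2, map_sub, map_one, h, sub_zero]
      calc m ^ k = aeval m ((X : K[X]) ^ k) * aeval m (b * g) := by
            rw [h1, mul_one, map_pow, aeval_X]
        _ = aeval m (b * (X ^ k * g)) := by rw [← map_mul]; congr 1; ring
        _ = 0 := hzero b
    exact (LinearMap.isNilpotent_trace_of_isNilpotent hnil).eq_zero
  · rw [hhm, ← map_mul, hEE]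
  · rw [hhm, ← map_mul, ← mul_assoc, map_mul, hEE, ← map_mul]
  · refine ⟨a * X ^ (k + 1) * (a * X ^ (k + 1)), ?_⟩
    calc aeval m (a * X ^ (k + 2) * (a * X ^ (k + 1)))
        = aeval m (X : K[X]) * aeval m (a * X ^ (k + 1) * (a * X ^ (k + 1))) := by
          rw [← map_mul]; congr 1; ring
      _ = _ := by rw [aeval_X]

variable {ι : Type*} {A : ι → ι → Submodule K (Module.End K V)} {p : ι → Module.End K V}

/-- A pair of mutually inverse operators with the image of largest dimension. -/
lemma exists_max (U U' : Submodule K (Module.End K V)) :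
    ∃ z w, IsSplit U U' z w ∧ ∀ z' w', IsSplit U U' z' w' →
      Module.finrank K (LinearMap.range (z' * w')) ≤
        Module.finrank K (LinearMap.range (z * w)) := by
  classical
  set S : Set ℕ := {r | ∃ z w, IsSplit U U' z w ∧
    Module.finrank K (LinearMap.range (z * w)) = r} with hS
  have hne : S.Nonempty := ⟨_, 0, 0, ⟨U.zero_mem, U'.zero_mem, by simp, by simp⟩, rfl⟩
  have hbd : BddAbove S := by
    refine ⟨Module.finrank K V, ?_⟩
    rintro r ⟨z, w, -, rfl⟩
    exact Submodule.finrank_le _
  obtain ⟨z, w, h1, h2⟩ := Nat.sSup_mem hne hbd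
  refine ⟨z, w, h1, fun z' w' h' => ?_⟩
  rw [h2]
  exact le_csSup hbd ⟨z', w', h', rfl⟩

/-- The complements of a maximal pair are orthogonal modulo the radical of the trace form. -/
lemma trace_compl (hA : IsBlocks A p) {x y : ι} {z w : Module.End K V}
    (h : IsSplit (A x y) (A y x) z w)
    (hmax : ∀ z' w', IsSplit (A x y) (A y x) z' w' →
      Module.finrank K (LinearMap.range (z' * w')) ≤ Module.finrank K (LinearMap.range (z * w)))
    {a b : Module.End K V} (ha : a ∈ A y x) (hb : b ∈ A x y) :
    LinearMap.trace K V (b * ((p y - w * z) * a * (p x - z * w))) = 0 := by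
  by_contra hne
  set e' := p x - z * w with he'
  set f' := p y - w * z with hf'
  have hzwe : z * w ∈ A x x := hA.mul_mem h.left h.right
  have hwze : w * z ∈ A y y := hA.mul_mem h.right h.left
  have he'A : e' ∈ A x x := Submodule.sub_mem _ (hA.one_mem x) hzwe
  have hf'A : f' ∈ A y y := Submodule.sub_mem _ (hA.one_mem y) hwze
  have e'z : e' * z = 0 := by rw [he', sub_mul, hA.one_mul h.left, h.zwz, sub_self]
  have we' : w * e' = 0 := by
    rw [he', mul_sub, hA.mul_one h.right, ← mul_assoc, h.wzw, sub_self]
  have f'w : f' * w = 0 := by rw [hf', sub_mul, hA.one_mul h.right, h.wzw, sub_self]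
  have zf' : z * f' = 0 := by
    rw [hf', mul_sub, hA.mul_one h.left, ← mul_assoc, h.zwz, sub_self]
  have e'e' : e' * e' = e' := by
    conv_lhs => rw [he']
    rw [← he', sub_mul, mul_assoc, we', mul_zero, sub_zero, hA.one_mul he'A]
  have f'f' : f' * f' = f' := by
    conv_lhs => rw [hf']
    rw [← hf', sub_mul, mul_assoc, zf', mul_zero, sub_zero, hA.one_mul hf'A]
  set b' := e' * b * f' with hb'
  set a' := f' * a * e' with ha'
  have hb'A : b' ∈ A x y := hA.mul_mem (hA.mul_mem he'A hb) hf'A
  have ha'A : a' ∈ A y x := hA.mul_mem (hA.mul_mem hf'A ha) he'A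
  have htr : LinearMap.trace K V (b' * a') ≠ 0 := by
    have h1 : b' * a' = e' * (b * (f' * a * e')) := by
      rw [hb', ha', mul_assoc, mul_assoc, mul_assoc f' a e', ← mul_assoc f' f', f'f']
    rw [h1, LinearMap.trace_mul_comm, mul_assoc b, mul_assoc (f' * a), e'e']
    exact hne
  obtain ⟨g, hg0, hgg, hgh, q, hq⟩ := exists_idem htr
  set m := b' * a' with hm
  have hmA : m ∈ A x x := hA.mul_mem hb'A ha'A
  have e'm : e' * m = m := by
    rw [hm, ← mul_assoc e' b' a', hb', ← mul_assoc e' (e' * b) f', ← mul_assoc e' e' b, e'e']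
  have me' : m * e' = m := by
    rw [hm, ha', mul_assoc, mul_assoc (f' * a), e'e']
  -- `g = m * q(m)` lies in the block
  have hgA : g ∈ A x x := by
    rw [hq]
    have : ∀ q : K[X], m * aeval m q ∈ A x x := by
      intro q
      induction q using Polynomial.induction_on' with
      | add p q hp hq => rw [map_add, mul_add]; exact Submodule.add_mem _ hp hq
      | monomial n c =>
        rw [aeval_monomial, Algebra.algebraMap_eq_smul_one, smul_mul_assoc, _root_.one_mul,
          mul_smul_comm]
        apply Submodule.smul_mem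
        induction n with
        | zero => rw [pow_zero, _root_.mul_one]; exact hmA
        | succ n ih => rw [pow_succ, ← mul_assoc]; exact hA.mul_mem ih hmA
    exact this q
  have e'g : e' * g = g := by rw [hq, ← mul_assoc, e'm]
  have ge' : g * e' = g := by
    rw [hq]
    have hc : Commute m (aeval m q) := by
      have : Commute (aeval m (X : K[X])) (aeval m q) := by
        rw [Commute, SemiconjBy, ← map_mul, ← map_mul, mul_comm]
      rwa [aeval_X] at this
    rw [hc.eq, mul_assoc, me']
  -- the enlarged pair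
  have zw'' : z * (a' * (g * m)) = 0 := by
    rw [ha', ← mul_assoc z, ← mul_assoc z, ← mul_assoc z, zf', zero_mul, zero_mul, zero_mul]
  have z''w : g * b' * w = 0 := by
    rw [hb', mul_assoc, mul_assoc (e' * b), f'w, mul_zero, mul_zero]
  have hprod : g * b' * (a' * (g * m)) = g * m := by
    rw [mul_assoc g, ← mul_assoc b', ← hm, ← mul_assoc g, hgg]
  have hsum : (z + g * b') * (w + a' * (g * m)) = z * w + g * m := by
    rw [add_mul, mul_add, mul_add, zw'', z''w, hprod, add_zero, zero_add]
  have wg : w * g = 0 := by rw [← e'g, ← mul_assoc, we', zero_mul]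
  have mz : m * z = 0 := by rw [← me', mul_assoc, e'z, mul_zero]
  have hmax' := hmax (z + g * b') (w + a' * (g * m)) (by
    refine ⟨Submodule.add_mem _ h.left (hA.mul_mem hgA hb'A),
      Submodule.add_mem _ h.right (hA.mul_mem ha'A (hA.mul_mem hgA hmA)), ?_, ?_⟩
    · rw [hsum, add_mul, mul_add, mul_add, h.zwz, mul_assoc z w, ← mul_assoc w g, wg, zero_mul,
        mul_zero, add_zero, mul_assoc g m z, mz, mul_zero, zero_add, ← mul_assoc (g * m), hgh]
    · rw [mul_assoc, hsum, add_mul, mul_add, mul_add, ← mul_assoc w z w, h.wzw,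
        ← mul_assoc w g m, wg, zero_mul, add_zero, mul_assoc a' (g * m) (z * w),
        mul_assoc g m (z * w), ← mul_assoc m z w, mz, zero_mul, mul_zero, mul_zero, zero_add,
        mul_assoc a' (g * m) (g * m), hgg])
  rw [hsum] at hmax'
  have hzw2 : z * w * (z * w) = z * w := by rw [← mul_assoc, h.zwz]
  have hcross1 : z * w * (g * m) = 0 := by
    rw [mul_assoc, ← mul_assoc w, wg, zero_mul, mul_zero]
  have hcross2 : g * m * (z * w) = 0 := by
    rw [mul_assoc, ← mul_assoc m, mz, zero_mul, mul_zero]
  have hidem : (z * w + g * m) * (z * w + g * m) = z * w + g * m := by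
    rw [add_mul, mul_add, mul_add, hzw2, hcross1, hcross2, hgg, add_zero, zero_add]
  have t1 := trace_idem hidem
  rw [map_add, trace_idem hzw2, trace_idem hgg] at t1
  have t2 : Module.finrank K (LinearMap.range (z * w)) +
      Module.finrank K (LinearMap.range (g * m)) =
        Module.finrank K (LinearMap.range (z * w + g * m)) := by exact_mod_cast t1
  have t3 : Module.finrank K (LinearMap.range (g * m)) ≠ 0 := by
    intro h0
    apply hg0
    rw [Submodule.finrank_eq_zero, LinearMap.range_eq_bot] at h0
    exact h0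
  omega

end Pool.Agent.Y106.Rk
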