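import Pool.Agent.Y106.Rk.Main

/-!
# Numerical criteria for the Lefschetz standard conjecture in one degree
-/

open CategoryTheory AlgebraicGeometry Finset

set_option linter.unusedSectionVars false


universe u₁ v₁ u v

namespace Pool.Agent.Y106.Rk

open Pool.Agent.H914 Pool.Agent.H447 Pool.Agent.W537 Pool.Agent.Y106.One Pool.Agent.Y106.Gen
  VarClass Obj WeilCohomology

variable {k : Type u} [Field k] {𝒱 : VarClass k} {ops : CycleOps 𝒱}
  {W : WeilCohomology.{u, v} ops} {X Y : 𝒱.Obj}

/-- The trace of `u` on `H^i(X)`, for an operator `u` on `H(X)` which preserves the degrees. -/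
noncomputable def trOn (W : WeilCohomology.{u, v} ops) (X : 𝒱.Obj) (i : ℕ) :
    Module.End W.K (W.H X) →ₗ[W.K] W.K := trWith (proj (W.isInternal X) i)

lemma trOn_apply (i : ℕ) (u : Module.End W.K (W.H X)) :
    trOn W X i u = LinearMap.trace W.K (W.H X) (proj (W.isInternal X) i * u) := rfl

/-- A correspondence of degree zero commutes with the projections. -/
lemma comm_proj {u : Module.End W.K (W.H X)} (hu : u ∈ KOp W X X 0) (i : ℕ) :
    u * proj (W.isInternal X) i = proj (W.isInternal X) i * u := kop_proj hu (by ring)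

lemma lef_kop {D : X.Cycles} (hD : X.IsCyc 1 D) (c : ℕ) : lefPow W X D c ∈ KOp W X X (c : ℤ) := by
  have h1 : LL D W ^ c ∈ KOp W X X (c : ℤ) := by
    refine mem_KS_iff.1 (Submodule.subset_span ?_)
    obtain ⟨Y, hY, hYW⟩ := LL_rop (W := W) hD
    exact ⟨_, (hY.pow _).cast (by ring), by rw [hYW]⟩
  rwa [lefPow, ← LinearMap.pow_mulLeft]

/-- If `γ` is inverse to `ξ ^ (n - i)` on `H^i(X)` then it can be inserted in all traces. -/
lemma trOn_insert {i : ℕ} {L γ : Module.End W.K (W.H X)} {c : ℤ} (hγ : γ ∈ KOp W X X (-c))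
    (hL : L ∈ KOp W X X c) (hinv : ∀ a ∈ W.gr X i, γ (L a) = a) {u : Module.End W.K (W.H X)}
    (hu : u ∈ KOp W X X 0) (v : Module.End W.K (W.H X)) :
    trOn W X i (u * γ * (L * v)) = trOn W X i (u * v) := by
  have h1 : (γ * L) * proj (W.isInternal X) i = proj (W.isInternal X) i := by
    apply LinearMap.ext
    intro a
    exact hinv _ (proj_mem _ i a)
  have h2 : γ * L ∈ KOp W X X 0 := KOp.cast (KOp.comp hγ hL) (by ring)
  have h3 : proj (W.isInternal X) i * (u * γ * (L * v)) = proj (W.isInternal X) i * (u * v) := by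
    calc proj (W.isInternal X) i * (u * γ * (L * v))
        = (proj (W.isInternal X) i * u) * ((γ * L) * v) := by simp only [mul_assoc]
      _ = u * ((proj (W.isInternal X) i * (γ * L)) * v) := by
          rw [← comm_proj hu i]; simp only [mul_assoc]
      _ = (u * proj (W.isInternal X) i) * v := by
          rw [← comm_proj h2 i, h1, mul_assoc]
      _ = _ := by rw [comm_proj hu i, mul_assoc]
  rw [trOn_apply, trOn_apply, h3]

/-- An inverse gives equality of the ranks. -/
theorem rank_of_inverse {i : ℕ} {L γ : Module.End W.K (W.H X)} {c : ℤ}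
    (hγ : γ ∈ KOp W X X (-c))
    (hL : L ∈ KOp W X X c) (hinv : ∀ a ∈ W.gr X i, γ (L a) = a) :
    traceRank W X i 0 ≤ traceRank W X i c := by
  rw [traceRank_eq, traceRank_eq, neg_zero]
  refine pairRank_le ((LinearMap.mulRight W.K γ).restrict
    (p := KOp W X X 0) (q := KOp W X X (-c)) (fun u hu => ?_)) (fun u h v hv => ?_)
  · exact KOp.cast (KOp.comp hu hγ) (by ring)
  · have h1 := h (L * v) (KOp.cast (KOp.comp hL hv) (by ring))
    have h2 := trOn_insert hγ hL hinv u.2 v
    rw [trOn_apply, trOn_apply] at h2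
    rw [← h2]
    exact h1

lemma detectsTrace_iff {D : X.Cycles} {i : ℕ} : DetectsTrace W X D i ↔
    ∀ u ∈ KOp W X X 0, (∀ z ∈ KOp W X X ((i : ℤ) - X.dim),
      trOn W X i (z * (lefPow W X D (X.dim - i) * u)) = 0) → trOn W X i u = 0 := by
  rw [DetectsTrace, ← cycOps_eq W X 0, ← cycOps_eq W X ((i : ℤ) - X.dim), add_zero,
    show (X.dim : ℤ) + (i - X.dim) = i by ring]
  rfl

lemma trForm_trOn (i : ℕ) (L γ u : Module.End W.K (W.H X)) :
    trForm (proj (W.isInternal X) i) L γ u = trOn W X i (γ * L * u) := by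
  rw [trForm_apply, trOn_apply, mul_assoc]
  rfl

/-- Representation of the trace. -/
lemma exists_rep_trace {i : ℕ} (hi : i ≤ X.dim) {D : X.Cycles}
    (h : DetectsTrace W X D i) : ∃ γ ∈ KOp W X X (-((X.dim - i : ℕ) : ℤ)), ∀ u ∈ KOp W X X 0,
      trOn W X i (γ * lefPow W X D (X.dim - i) * u) = trOn W X i u := by
  rw [detectsTrace_iff] at h
  obtain ⟨γ, hγ, hγ'⟩ := exists_rep_of_orth
    (trForm (proj (W.isInternal X) i) (lefPow W X D (X.dim - i)))
    (KOp W X X (-((X.dim - i : ℕ) : ℤ))) (KOp W X X 0) (trOn W X i) (by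
      intro u hu h0
      apply h u hu
      intro z hz
      have h1 := h0 z (KOp.cast hz (by omega))
      rw [trForm_trOn, mul_assoc] at h1
      exact h1)
  refine ⟨γ, hγ, fun u hu => ?_⟩
  have h1 := hγ' u hu
  rwa [trForm_trOn] at h1

/-- Operators with vanishing traces. -/
lemma nilp_of_traces {i : ℕ} {w : Module.End W.K (W.H X)} (hwK : w ∈ KOp W X X 0)
    (htr : ∀ u ∈ KOp W X X 0, trOn W X i (w * u) = 0) :
    IsNilpotent (proj (W.isInternal X) i * w) := by
  have hwP : Commute (proj (W.isInternal X) i) w := (comm_proj hwK i).symm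
  have hpow : ∀ r : ℕ, w ^ r ∈ KOp W X X 0 := by
    intro r
    induction r with
    | zero => exact KOp.id X
    | succ r ih => rw [pow_succ]; exact KOp.cast (KOp.comp ih hwK) (by ring)
  apply isNilpotent_of_trace_pow
  intro r
  have hPP : ∀ r : ℕ, proj (W.isInternal X) i ^ (r + 1) = proj (W.isInternal X) i := by
    intro r
    induction r with
    | zero => rw [zero_add, pow_one]
    | succ r ih => rw [pow_succ, ih, proj_mul_proj]
  rw [hwP.mul_pow, hPP, pow_succ']
  have h1 := htr _ (hpow r)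
  rwa [trOn_apply] at h1

lemma injOn_of_nilp {i : ℕ} {T : Module.End W.K (W.H X)}
    (hnil : IsNilpotent (proj (W.isInternal X) i * (1 - T))) {a : W.H X} (ha : a ∈ W.gr X i)
    (h0 : T a = 0) : a = 0 := by
  have h1 : (proj (W.isInternal X) i * (1 - T)) a = a := by
    rw [Module.End.mul_apply, LinearMap.sub_apply, Module.End.one_apply, h0, sub_zero,
      proj_same _ ha]
  obtain ⟨N, hN⟩ := hnil
  have h4 : ∀ N : ℕ, ((proj (W.isInternal X) i * (1 - T)) ^ N) a = a := by
    intro N
    induction N with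
    | zero => rfl
    | succ N ih => rw [pow_succ, Module.End.mul_apply, h1, ih]
  rw [← h4 N, hN, LinearMap.zero_apply]

/-- **The numerical criterion.** -/
theorem injects_of_detects {i : ℕ} (hi : i ≤ X.dim) {D : X.Cycles} (hD : X.IsCyc 1 D)
    (h : DetectsTrace W X D i) : InjectsLefschetz W X D i := by
  obtain ⟨γ, hγ, hγ'⟩ := exists_rep_trace hi h
  have hTK : γ * lefPow W X D (X.dim - i) ∈ KOp W X X 0 :=
    KOp.cast (KOp.comp hγ (lef_kop hD _)) (by ring)
  have hwK : 1 - γ * lefPow W X D (X.dim - i) ∈ KOp W X X 0 :=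
    Submodule.sub_mem _ (KOp.id X) hTK
  have hnil := nilp_of_traces (i := i) hwK (by
    intro u hu
    rw [sub_mul, one_mul, map_sub, hγ' u hu, sub_self])
  obtain ⟨γ', hγ'', rfl⟩ := mem_KOp_iff.1 hγ
  refine ⟨γ', by rwa [show (X.dim : ℤ) + -((X.dim - i : ℕ) : ℤ) = i by omega] at hγ'', ?_⟩
  intro a ha h0
  exact injOn_of_nilp hnil ha h0

/-- Conversely an inverse detects the trace. -/
theorem detects_of_inverse {i : ℕ} {D : X.Cycles} (hD : X.IsCyc 1 D)
    {z : (X.prod X).Cycles} (hz : InvertsLefschetz W X D i z) (hi : i ≤ X.dim) :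
    DetectsTrace W X D i := by
  rw [detectsTrace_iff]
  intro u hu h
  have hγ : cycOp W X z ∈ KOp W X X (-((X.dim - i : ℕ) : ℤ)) := KOp.gen (p := i) (by omega) hz.1
  have h1 := h _ (KOp.cast hγ (by omega))
  have h2 := trOn_insert hγ (lef_kop hD (X.dim - i)) hz.2.1 (KOp.id X) u
  have h3 : trOn W X i (cycOp W X z * (lefPow W X D (X.dim - i) * u)) = 0 := h1
  have h4 : trOn W X i (LinearMap.id * cycOp W X z * (lefPow W X D (X.dim - i) * u)) =
      trOn W X i (cycOp W X z * (lefPow W X D (X.dim - i) * u)) := rfl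
  rw [h4, h3] at h2
  exact h2.symm

end Pool.Agent.Y106.Rk
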