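import Pool.Agent.Y106.Rk.PairDefs
import Pool.Agent.Y106.One.Defs
import Pool.Agent.H914R2.Graded

/-!
# The ranks of the trace pairings between correspondences: definitions
-/

open CategoryTheory AlgebraicGeometry

universe u v

namespace Pool.Agent.Y106.Rk

open Pool.Agent.H914 VarClass Obj WeilCohomology

variable {k : Type u} [Field k] {𝒱 : VarClass k} {ops : CycleOps 𝒱}

/-- The operators on `H(X)` induced by linear combinations, with coefficients in the coefficient
field of `W`, of classes of cycles of codimension `q` on `X × X`. -/
noncomputable def cycOps (W : WeilCohomology.{u, v} ops) (X : 𝒱.Obj) (q : ℤ) :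
    Submodule W.K (Module.End W.K (W.H X)) :=
  spanOps W.corr (spanCycles W (X.prod X) q)

/-- The rank of the pairing `(γ, δ) ↦ tr(γ ∘ δ | H^i(X))` between the operators `γ` and `δ` given by
linear combinations of cycles of codimension `dim X - c` and `dim X + c` on `X × X`. -/
noncomputable def traceRank (W : WeilCohomology.{u, v} ops) (X : 𝒱.Obj) (i : ℕ) (c : ℤ) : ℕ :=
  rankWith (trWith (proj (W.isInternal X) i)) (cycOps W X (X.dim - c)) (cycOps W X (X.dim + c))

/-- The cycles of codimension `i` on `X × X` detect the trace: a linear combination `u` of cycles of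
codimension `n` on `X × X` such that the trace of `z ∘ ξ ^ (n - i) ∘ u` on `H^i(X)` vanishes for
all linear combinations `z` of cycles of codimension `i` on `X × X` has trace zero on `H^i(X)`. Here
`n = dim X` and `ξ` is the class of `D`. -/
def DetectsTrace (W : WeilCohomology.{u, v} ops) (X : 𝒱.Obj) (D : X.Cycles) (i : ℕ) : Prop :=
  Detects (trWith (proj (W.isInternal X) i)) (Pool.Agent.W537.lefPow W X D (X.dim - i))
    (cycOps W X i) (cycOps W X X.dim)

end Pool.Agent.Y106.Rk
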