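import Pool.Agent.Y106.Rk.Alg

/-!
# Equality of the ranks of the trace pairings splits the units
-/

set_option linter.unusedSectionVars false

open Polynomial

namespace Pool.Agent.Y106.Rk

section Rank

variable {K : Type*} [Field K]

lemma finrank_range_prodMap {M₁ M₂ D₁ D₂ : Type*} [AddCommGroup M₁] [Module K M₁]
    [AddCommGroup M₂] [Module K M₂] [AddCommGroup D₁] [Module K D₁] [AddCommGroup D₂] [Module K D₂]
    [Module.Finite K M₁] [Module.Finite K M₂] (f : M₁ →ₗ[K] D₁) (g : M₂ →ₗ[K] D₂) :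
    Module.finrank K (LinearMap.range (f.prodMap g)) =
      Module.finrank K (LinearMap.range f) + Module.finrank K (LinearMap.range g) := by
  have h1 : LinearMap.range (f.prodMap g) =
      LinearMap.range ((LinearMap.range f).subtype.prodMap (LinearMap.range g).subtype) := by
    ext ⟨a, b⟩
    constructor
    · rintro ⟨⟨x, y⟩, hxy⟩
      exact ⟨(⟨f x, x, rfl⟩, ⟨g y, y, rfl⟩), hxy⟩
    · rintro ⟨⟨⟨_, x, rfl⟩, ⟨_, y, rfl⟩⟩, hxy⟩
      exact ⟨(x, y), hxy⟩
  rw [h1, LinearMap.finrank_range_of_inj, Module.finrank_prod]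
  rintro ⟨⟨a, ha⟩, ⟨b, hb⟩⟩ ⟨⟨a', ha'⟩, ⟨b', hb'⟩⟩ h
  simpa [Prod.ext_iff] using h

end Rank

variable {K V : Type*} [Field K] [AddCommGroup V] [Module K V] [CharZero K] [Module.Finite K V]
variable {ι : Type*} {A : ι → ι → Submodule K (Module.End K V)} {p : ι → Module.End K V}

/-- The radical of the trace pairing. -/
def Rad (A : ι → ι → Submodule K (Module.End K V)) (x y : ι) (a : Module.End K V) : Prop :=
  a ∈ A x y ∧ ∀ b ∈ A y x, LinearMap.trace K V (a * b) = 0

lemma Rad.mul_left (hA : IsBlocks A p) {x y z : ι} {a c : Module.End K V} (ha : Rad A x y a)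
    (hc : c ∈ A z x) : Rad A z y (c * a) := by
  refine ⟨hA.mul_mem hc ha.1, fun b hb => ?_⟩
  rw [mul_assoc, LinearMap.trace_mul_comm, mul_assoc]
  exact ha.2 _ (hA.mul_mem hb hc)

lemma Rad.mul_right (hA : IsBlocks A p) {x y z : ι} {a c : Module.End K V} (ha : Rad A x y a)
    (hc : c ∈ A y z) : Rad A x z (a * c) := by
  refine ⟨hA.mul_mem ha.1 hc, fun b hb => ?_⟩
  rw [mul_assoc]
  exact ha.2 _ (hA.mul_mem hc hb)

lemma Rad.add {x y : ι} {a c : Module.End K V} (ha : Rad A x y a) (hc : Rad A x y c) :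
    Rad A x y (a + c) := by
  refine ⟨Submodule.add_mem _ ha.1 hc.1, fun b hb => ?_⟩
  rw [add_mul, map_add, ha.2 b hb, hc.2 b hb, add_zero]

lemma rad_iff {x y : ι} (a : A x y) : pair 1 (A x y) (A y x) a = 0 ↔ Rad A x y a := by
  rw [pair_eq_zero_iff]
  simp only [one_mul]
  exact ⟨fun h => ⟨a.2, h⟩, fun h => h.2⟩

/-- The operator `a ↦ r a s` on a space of operators. -/
noncomputable def sandwich (U U' : Submodule K (Module.End K V)) (r s : Module.End K V)
    (h : ∀ a ∈ U, r * a * s ∈ U') : U →ₗ[K] U' :=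
  ((LinearMap.mulRight K s ∘ₗ LinearMap.mulLeft K r) ∘ₗ U.subtype).codRestrict U'
    (fun a => h a a.2)

lemma sandwich_apply (U U' : Submodule K (Module.End K V)) (r s : Module.End K V)
    (h : ∀ a ∈ U, r * a * s ∈ U') (a : U) :
    ((sandwich U U' r s h a : U') : Module.End K V) = r * a * s := rfl

/-- **Inequality of ranks, and splitting by equality of ranks.** -/
theorem rank_main (hA : IsBlocks A p) (x y : ι) :
    pairRank 1 (A x y) (A y x) + pairRank 1 (A y x) (A x y) ≤
      pairRank 1 (A x x) (A x x) + pairRank 1 (A y y) (A y y) ∧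
    (pairRank 1 (A x x) (A x x) + pairRank 1 (A y y) (A y y) ≤
      pairRank 1 (A x y) (A y x) + pairRank 1 (A y x) (A x y) →
    ∃ z ∈ A x y, ∃ w ∈ A y x, z * w = p x) := by
  obtain ⟨z, w, h, hmax⟩ := exists_max (A x y) (A y x)
  set e' := p x - z * w with he'
  set f' := p y - w * z with hf'
  have hzwe : z * w ∈ A x x := hA.mul_mem h.left h.right
  have hwze : w * z ∈ A y y := hA.mul_mem h.right h.left
  have he'A : e' ∈ A x x := Submodule.sub_mem _ (hA.one_mem x) hzwe
  have hf'A : f' ∈ A y y := Submodule.sub_mem _ (hA.one_mem y) hwze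
  have e'z : e' * z = 0 := by rw [he', sub_mul, hA.one_mul h.left, h.zwz, sub_self]
  have we' : w * e' = 0 := by
    rw [he', mul_sub, hA.mul_one h.right, ← mul_assoc, h.wzw, sub_self]
  have f'w : f' * w = 0 := by rw [hf', sub_mul, hA.one_mul h.right, h.wzw, sub_self]
  have zf' : z * f' = 0 := by
    rw [hf', mul_sub, hA.mul_one h.left, ← mul_assoc, h.zwz, sub_self]
  have e'e' : e' * e' = e' := by
    conv_lhs => rw [he']
    rw [← he', sub_mul, mul_assoc, we', mul_zero, sub_zero, hA.one_mul he'A]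
  have f'f' : f' * f' = f' := by
    conv_lhs => rw [hf']
    rw [← hf', sub_mul, mul_assoc, zf', mul_zero, sub_zero, hA.one_mul hf'A]
  have hpe : p x = e' + z * w := by rw [he']; abel
  have hpf : p y = f' + w * z := by rw [hf']; abel
  have A1 : ∀ t, e' * (z * t) = 0 := fun t => by rw [← mul_assoc, e'z, zero_mul]
  have A2 : ∀ t, w * (e' * t) = 0 := fun t => by rw [← mul_assoc, we', zero_mul]
  have A3 : ∀ t, f' * (w * t) = 0 := fun t => by rw [← mul_assoc, f'w, zero_mul]
  have A5 : ∀ t, e' * (e' * t) = e' * t := fun t => by rw [← mul_assoc, e'e']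
  have A7 : ∀ t, z * (w * (z * t)) = z * t := fun t => by
    rw [← mul_assoc, ← mul_assoc, h.zwz]
  have A8 : ∀ t, w * (z * (w * t)) = w * t := fun t => by
    rw [← mul_assoc, ← mul_assoc, h.wzw]
  have B7 : z * (w * z) = z := by rw [← mul_assoc, h.zwz]
  have B8 : w * (z * w) = w := by rw [← mul_assoc, h.wzw]
  -- the two corners which vanish
  have c1 : ∀ a ∈ A y x, Rad A y x (f' * a * e') := by
    intro a ha
    refine ⟨hA.mul_mem (hA.mul_mem hf'A ha) he'A, fun b hb => ?_⟩
    rw [LinearMap.trace_mul_comm]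
    exact trace_compl hA h hmax ha hb
  have c2 : ∀ a ∈ A x y, Rad A x y (e' * a * f') := by
    intro a ha
    refine ⟨hA.mul_mem (hA.mul_mem he'A ha) hf'A, fun b hb => ?_⟩
    have h1 := trace_compl hA h hmax hb ha
    rw [show e' * a * f' * b = e' * (a * (f' * b)) by simp only [mul_assoc],
      LinearMap.trace_mul_comm]
    rw [show a * (f' * b) * e' = a * (f' * b * e') by simp only [mul_assoc]]
    exact h1
  -- the comparison of the ranks
  set φ₂ := (pair 1 (A x x) (A x x)).prodMap (pair 1 (A y y) (A y y)) with hφ₂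
  have hcorner : ∀ c ∈ A x x, e' * c * e' ∈ A x x := fun c hc =>
    hA.mul_mem (hA.mul_mem he'A hc) he'A
  set κ := sandwich (A x x) (A x x) e' e' hcorner with hκ
  set φ₁ := ((pair 1 (A x y) (A y x)).prodMap (pair 1 (A y x) (A x y))).prodMap
    (pair 1 (A x x) (A x x) ∘ₗ κ) with hφ₁
  have m1 : ∀ a ∈ A x y, (1 : Module.End K V) * a * w ∈ A x x := fun a ha => by
    rw [one_mul]; exact hA.mul_mem ha h.right
  have m2 : ∀ b ∈ A y x, z * b * e' ∈ A x x := fun b hb =>
    hA.mul_mem (hA.mul_mem h.left hb) he'A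
  have m3 : ∀ a ∈ A x y, w * a * f' ∈ A y y := fun a ha =>
    hA.mul_mem (hA.mul_mem h.right ha) hf'A
  have m4 : ∀ b ∈ A y x, (1 : Module.End K V) * b * z ∈ A y y := fun b hb => by
    rw [one_mul]; exact hA.mul_mem hb h.left
  set Ψ : ((A x y) × (A y x)) × (A x x) →ₗ[K] (A x x) × (A y y) :=
    LinearMap.prod
      (LinearMap.coprod (LinearMap.coprod (sandwich (A x y) (A x x) 1 w m1)
        (sandwich (A y x) (A x x) z e' m2)) κ)
      (LinearMap.coprod (LinearMap.coprod (sandwich (A x y) (A y y) w f' m3)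
        (sandwich (A y x) (A y y) 1 z m4)) 0) with hΨ
  have key : ∀ q, φ₂ (Ψ q) = 0 → φ₁ q = 0 := by
    rintro ⟨⟨⟨a, ha⟩, ⟨b, hb⟩⟩, ⟨c, hc⟩⟩ h0
    have h1 : pair 1 (A x x) (A x x) (Ψ ((⟨a, ha⟩, ⟨b, hb⟩), ⟨c, hc⟩)).1 = 0 :=
      congrArg Prod.fst h0
    have h2 : pair 1 (A y y) (A y y) (Ψ ((⟨a, ha⟩, ⟨b, hb⟩), ⟨c, hc⟩)).2 = 0 :=
      congrArg Prod.snd h0
    rw [rad_iff] at h1 h2
    have h1' : Rad A x x (1 * a * w + z * b * e' + e' * c * e') := h1
    have h2' : Rad A y y (w * a * f' + 1 * b * z + 0) := h2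
    rw [one_mul] at h1' h2'
    rw [add_zero] at h2'
    -- the five parts
    have r1 : Rad A x y (a * w * z) := by
      have h3 : (a * w + z * b * e' + e' * c * e') * (z * w) * z = a * w * z := by
        simp only [add_mul, mul_assoc, A1, A7, B7, e'z, mul_zero, zero_mul, add_zero]
      rw [← h3]
      exact (h1'.mul_right hA hzwe).mul_right hA h.left
    have r2 : Rad A x x (e' * c * e') := by
      have h3 : e' * ((a * w + z * b * e' + e' * c * e') * e') = e' * c * e' := by
        simp only [add_mul, mul_add, mul_assoc, A1, A5, we', e'e', mul_zero, zero_add]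
      rw [← h3]
      exact (h1'.mul_right hA he'A).mul_left hA he'A
    have r3 : Rad A y x (w * z * b * e') := by
      have h3 : w * (z * w * ((a * w + z * b * e' + e' * c * e') * e')) = w * z * b * e' := by
        simp only [add_mul, mul_add, mul_assoc, A2, A8, we', e'e', mul_zero, zero_add,
          add_zero]
      rw [← h3]
      exact ((h1'.mul_right hA he'A).mul_left hA hzwe).mul_left hA h.right
    have r4 : Rad A y x (b * z * w) := by
      have h3 : (w * a * f' + b * z) * (w * z) * w = b * z * w := by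
        simp only [add_mul, mul_assoc, A3, B8, f'w, mul_zero, zero_add]
      rw [← h3]
      exact (h2'.mul_right hA hwze).mul_right hA h.right
    have r5 : Rad A x y (z * w * a * f') := by
      have h3 : z * ((w * a * f' + b * z) * f') = z * w * a * f' := by
        simp only [add_mul, mul_add, mul_assoc, zf', f'f', mul_zero, add_zero]
      rw [← h3]
      exact (h2'.mul_right hA hf'A).mul_left hA h.left
    have ra : Rad A x y a := by
      have h3 : a = a * w * z + z * w * a * f' + e' * a * f' := by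
        have e1 : p x * a * f' = e' * a * f' + z * w * a * f' := by
          rw [hpe, add_mul, add_mul]
        have e2 : a = a * f' + a * w * z := by
          conv_lhs => rw [← hA.mul_one ha, hpf, mul_add, ← mul_assoc]
        conv_lhs => rw [e2]
        rw [hA.one_mul ha] at e1
        rw [e1]
        abel
      rw [h3]
      exact (r1.add r5).add (c2 a ha)
    have rb : Rad A y x b := by
      have h3 : b = b * z * w + w * z * b * e' + f' * b * e' := by
        have e1 : p y * b * e' = f' * b * e' + w * z * b * e' := by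
          rw [hpf, add_mul, add_mul]
        have e2 : b = b * e' + b * z * w := by
          conv_lhs => rw [← hA.mul_one hb, hpe, mul_add, ← mul_assoc]
        conv_lhs => rw [e2]
        rw [hA.one_mul hb] at e1
        rw [e1]
        abel
      rw [h3]
      exact (r4.add r3).add (c1 b hb)
    have k1 : pair 1 (A x y) (A y x) ⟨a, ha⟩ = 0 := (rad_iff _).2 ra
    have k2 : pair 1 (A y x) (A x y) ⟨b, hb⟩ = 0 := (rad_iff _).2 rb
    have k3 : pair 1 (A x x) (A x x) (κ ⟨c, hc⟩) = 0 := (rad_iff _).2 r2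
    exact Prod.ext (Prod.ext k1 k2) k3
  have hle := finrank_range_le Ψ φ₁ φ₂ key
  rw [hφ₁, hφ₂, finrank_range_prodMap, finrank_range_prodMap, finrank_range_prodMap] at hle
  refine ⟨by unfold pairRank; omega, fun hrank => ⟨z, h.left, w, h.right, ?_⟩⟩
  have h0 : Module.finrank K (LinearMap.range (pair 1 (A x x) (A x x) ∘ₗ κ)) = 0 := by
    unfold pairRank at hrank
    omega
  rw [Submodule.finrank_eq_zero, LinearMap.range_eq_bot] at h0
  have h1 := congrArg (fun F => F (⟨p x, hA.one_mem x⟩ : A x x) (⟨p x, hA.one_mem x⟩ : A x x)) h0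
  have h2 : LinearMap.trace K V (1 * (e' * p x * e' * p x)) = 0 := h1
  rw [one_mul, hA.mul_one he'A, e'e', hA.mul_one he'A] at h2
  have h3 : e' = 0 := LinearMap.IsIdempotentElem.eq_zero_of_trace_eq_zero e'e' h2
  rw [he', sub_eq_zero] at h3
  exact h3.symm

end Pool.Agent.Y106.Rk
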