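import Pool.Agent.Y106.Rk.Dim

/-!
# Ranks of pairings: surjections, exchange of the arguments
-/

set_option linter.unusedSectionVars false

namespace Pool.Agent.Y106.Rk

variable {K V : Type*} [Field K] [AddCommGroup V] [Module K V] [Module.Finite K V]

/-- The rank of a pairing between two images. -/
lemma pairRank_map {p q : Module.End K V} {U U' S S' : Submodule K (Module.End K V)}
    (π : U →ₗ[K] S) (hπ : Function.Surjective π) (π' : U' →ₗ[K] S')
    (hπ' : Function.Surjective π')
    (h : ∀ (a : U) (b : U'), pair p S S' (π a) (π' b) = pair q U U' a b) :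
    pairRank p S S' = pairRank q U U' := by
  unfold pairRank
  have h1 : pair q U U' = (π'.dualMap ∘ₗ pair p S S') ∘ₗ π := by
    apply LinearMap.ext
    intro a
    apply LinearMap.ext
    intro b
    exact (h a b).symm
  rw [h1, LinearMap.range_comp_of_range_eq_top _ (LinearMap.range_eq_top.2 hπ),
    LinearMap.range_comp]
  have hinj : Function.Injective π'.dualMap := LinearMap.dualMap_injective_of_surjective hπ'
  exact (Submodule.equivMapOfInjective _ hinj _).finrank_eq

/-- Comparison of the ranks of two pairings. -/
lemma pairRank_le {p q : Module.End K V} {U U' S S' : Submodule K (Module.End K V)}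
    (Ψ : U →ₗ[K] S)
    (h : ∀ a : U, (∀ b ∈ S', LinearMap.trace K V (p * ((Ψ a : Module.End K V) * b)) = 0) →
      ∀ b ∈ U', LinearMap.trace K V (q * ((a : Module.End K V) * b)) = 0) :
    pairRank q U U' ≤ pairRank p S S' := by
  unfold pairRank
  apply finrank_range_le Ψ
  intro a ha
  rw [pair_eq_zero_iff] at ha ⊢
  exact h a ha

/-- The rank of a pairing does not change if the arguments are exchanged. -/
lemma pairRank_comm (p : Module.End K V) (U U' : Submodule K (Module.End K V))
    (h : ∀ a ∈ U, ∀ b ∈ U', LinearMap.trace K V (p * (b * a)) =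
      LinearMap.trace K V (p * (a * b))) :
    pairRank p U' U = pairRank p U U' := by
  unfold pairRank
  have h1 : pair p U' U = (pair p U U').dualMap ∘ₗ Module.Dual.eval K U' := by
    apply LinearMap.ext
    intro b
    apply LinearMap.ext
    intro a
    exact h a a.2 b b.2
  rw [h1, LinearMap.range_comp_of_range_eq_top, LinearMap.finrank_range_dualMap_eq_finrank_range]
  rw [LinearMap.range_eq_top]
  exact (Module.bijective_dual_eval K U').2

end Pool.Agent.Y106.Rk
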