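import Pool.Agent.Y106.Rk.Crit

/-!
# The ranks of the trace pairings do not depend on the theory
-/

open CategoryTheory AlgebraicGeometry Finset

set_option linter.unusedSectionVars false


universe u₁ v₁ u v

namespace Pool.Agent.Y106.Rk

section Lin

variable {K : Type*} [Field K] [CharZero K] {V : Type*} [AddCommGroup V] [Module K V]
  [Module.Finite K V]

/-- The rank of a pairing is attained on generators. -/
lemma exists_indep {p : Module.End K V} {U U' : Submodule K (Module.End K V)}
    {S : Set (Module.End K V)} (hS : U = Submodule.span K S) :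
    ∃ z : Fin (pairRank p U U') → Module.End K V, (∀ a, z a ∈ S) ∧
      ∀ c : Fin (pairRank p U U') → K,
        (∀ b ∈ U', LinearMap.trace K V (p * ((∑ a, c a • z a) * b)) = 0) → c = 0 := by
  classical
  have hSU : ∀ s ∈ S, s ∈ U := fun s hs => by rw [hS]; exact Submodule.subset_span hs
  set T : Set (Module.Dual K U') := {f | ∃ s : Module.End K V, ∃ hs : s ∈ S,
    pair p U U' ⟨s, hSU s hs⟩ = f} with hT
  have hspan : Submodule.span K T = LinearMap.range (pair p U U') := by
    apply le_antisymm
    · rw [Submodule.span_le]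
      rintro _ ⟨s, hs, rfl⟩
      exact ⟨_, rfl⟩
    · rintro _ ⟨⟨u, hu⟩, rfl⟩
      have key : ∀ u (hu : u ∈ Submodule.span K S), ∀ hu' : u ∈ U,
          pair p U U' ⟨u, hu'⟩ ∈ Submodule.span K T := by
        intro u hu
        induction hu using Submodule.span_induction with
        | mem x hx => intro hu'; exact Submodule.subset_span ⟨x, hx, rfl⟩
        | zero =>
          intro hu'
          have : (⟨0, hu'⟩ : U) = 0 := rfl
          rw [this, map_zero]
          exact Submodule.zero_mem _
        | add x y hx hy ihx ihy =>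
          intro hu'
          have hx' : x ∈ U := by rw [hS]; exact hx
          have hy' : y ∈ U := by rw [hS]; exact hy
          have : (⟨x + y, hu'⟩ : U) = ⟨x, hx'⟩ + ⟨y, hy'⟩ := rfl
          rw [this, map_add]
          exact Submodule.add_mem _ (ihx hx') (ihy hy')
        | smul a x hx ihx =>
          intro hu'
          have hx' : x ∈ U := by rw [hS]; exact hx
          have : (⟨a • x, hu'⟩ : U) = a • ⟨x, hx'⟩ := rfl
          rw [this, map_smul]
          exact Submodule.smul_mem _ _ (ihx hx')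
      exact key u (by rw [← hS]; exact hu) hu
  obtain ⟨b, hbT, hbspan, hbind⟩ := exists_linearIndependent K T
  have hfin : Module.finrank K (Submodule.span K b) = pairRank p U U' := by
    rw [hbspan, hspan]; rfl
  haveI : Fintype b := hbind.setFinite.fintype
  have hcard : Fintype.card b = pairRank p U U' := by
    rw [← hfin, finrank_span_set_eq_card hbind, Set.toFinset_card]
  set e : Fin (pairRank p U U') ≃ b := (Fintype.equivFinOfCardEq hcard).symm with he
  choose s hs hs' using fun x : b => hbT x.2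
  refine ⟨fun a => s (e a), fun a => hs _, fun c hc => ?_⟩
  have hlin : LinearIndependent K (fun a => ((e a : b) : Module.Dual K U')) :=
    hbind.comp e e.injective
  rw [Fintype.linearIndependent_iff] at hlin
  funext a
  refine hlin c ?_ a
  apply LinearMap.ext
  rintro ⟨b', hb'⟩
  have h1 := hc b' hb'
  rw [LinearMap.zero_apply, ← h1, LinearMap.sum_apply, Finset.sum_mul, Finset.mul_sum, map_sum]
  apply Finset.sum_congr rfl
  intro a _
  rw [LinearMap.smul_apply, ← hs' (e a), pair_apply, smul_mul_assoc, mul_smul_comm, map_smul]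

/-- A lower bound for the rank. -/
lemma le_pairRank {p : Module.End K V} {U U' : Submodule K (Module.End K V)} {r : ℕ}
    (z : Fin r → Module.End K V) (hz : ∀ a, z a ∈ U)
    (h : ∀ c : Fin r → K, (∀ b ∈ U', LinearMap.trace K V (p * ((∑ a, c a • z a) * b)) = 0) →
      c = 0) : r ≤ pairRank p U U' := by
  classical
  set Ψ : (Fin r → K) →ₗ[K] U :=
    Fintype.linearCombination K (fun a => (⟨z a, hz a⟩ : U)) with hΨ
  have h1 := finrank_range_le Ψ (LinearMap.id : (Fin r → K) →ₗ[K] (Fin r → K)) (pair p U U') (by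
    intro c hc
    rw [LinearMap.id_apply]
    apply h c
    rw [pair_eq_zero_iff] at hc
    intro b hb
    have h2 := hc b hb
    have h3 : ((Ψ c : U) : Module.End K V) = ∑ a, c a • z a := by
      rw [hΨ, Fintype.linearCombination_apply]
      push_cast
      rfl
    rwa [h3] at h2)
  rw [LinearMap.range_id, finrank_top, Module.finrank_fin_fun] at h1
  exact h1

end Lin

open Pool.Agent.H914 Pool.Agent.H447 Pool.Agent.W537 Pool.Agent.Y106.One Pool.Agent.Y106.Gen
  VarClass Obj WeilCohomology

variable {k : Type u} [Field k] {𝒱 : VarClass k} {ops : CycleOps 𝒱} {X : 𝒱.Obj}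
  {W W' : WeilCohomology.{u, v} ops}

lemma eq_zero_of_ret {K : Type*} [Field K] [CharZero K] {x : K}
    (h : ∀ ret : K →ₗ[ℚ] ℚ, ret x = 0) : x = 0 := by
  by_contra hx
  obtain ⟨ret, hret⟩ := exists_retract K
  have h1 := h (ret ∘ₗ LinearMap.mulLeft ℚ x⁻¹)
  rw [LinearMap.comp_apply, LinearMap.mulLeft_apply, inv_mul_cancel₀ hx, hret] at h1
  exact one_ne_zero h1

lemma exists_trace_mul {i : ℕ} (hT : SameTraces X i W W') {c : ℤ} {p q : ℕ}
    (hp : (p : ℤ) = X.dim + -c) (hq : (q : ℤ) = X.dim + c) {ζ ω : (X.prod X).Cycles}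
    (hζ : (X.prod X).IsCyc p ζ) (hω : (X.prod X).IsCyc q ω) :
    ∃ t : ℚ, trOn W X i (W.corr (W.cl _ ζ) * W.corr (W.cl _ ω)) = t ∧
      trOn W' X i (W'.corr (W'.cl _ ζ) * W'.corr (W'.cl _ ω)) = t := by
  have r1 : Realized.{u, v} ops X (-c) (fun W => W.corr (W.cl _ ζ)) :=
    Or.inl ⟨p, hp, ζ, hζ, fun _ => rfl⟩
  have r2 : Realized.{u, v} ops X c (fun W => W.corr (W.cl _ ω)) :=
    Or.inl ⟨q, hq, ω, hω, fun _ => rfl⟩
  have r3 : Realized.{u, v} ops X 0 (fun W => W.corr (W.cl _ ζ) * W.corr (W.cl _ ω)) :=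
    (r1.mul r2).cast (by ring)
  obtain ⟨t, h1, h2⟩ := hT _ r3
  refine ⟨t, ?_, ?_⟩
  · rw [trOn_apply, h1]
  · rw [trOn_apply, h2]

/-- The trace of a combination of correspondences. -/
lemma trOn_sum_mul {i r : ℕ} (c : Fin r → W.K) (z : Fin r → Module.End W.K (W.H X))
    (b : Module.End W.K (W.H X)) :
    LinearMap.trace W.K (W.H X) (proj (W.isInternal X) i * ((∑ a, c a • z a) * b)) =
      ∑ a, c a * trOn W X i (z a * b) := by
  rw [Finset.sum_mul, Finset.mul_sum, map_sum]
  apply Finset.sum_congr rfl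
  intro a _
  rw [smul_mul_assoc, mul_smul_comm, map_smul, smul_eq_mul, trOn_apply]

lemma ret_sum {K K' : Type*} [Field K] [CharZero K] [Field K'] [CharZero K'] {r : ℕ}
    (ret : K' →ₗ[ℚ] ℚ) (c : Fin r → K') (t : Fin r → ℚ)
    (h : ∑ a, c a * (t a : K') = 0) : ∑ a, ((ret (c a) : ℚ) : K) * (t a : K) = 0 := by
  have h1 : ∑ a, ((ret (c a) : ℚ) : K) * (t a : K) = ((ret (∑ a, c a * (t a : K')) : ℚ) : K) := by
    rw [map_sum, Rat.cast_sum]
    apply Finset.sum_congr rfl
    intro a _
    rw [ret_mul]
    push_cast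
    rfl
  rw [h1, h, map_zero, Rat.cast_zero]

/-- **Independence of the theory of the ranks.** -/
theorem traceRank_le (i : ℕ) (hT : SameTraces X i W W') (c : ℤ) :
    traceRank W X i c ≤ traceRank W' X i c := by
  rw [traceRank_eq, traceRank_eq]
  obtain ⟨z, hzS, hz⟩ := exists_indep (p := proj (W.isInternal X) i) (U := KOp W X X (-c))
    (U' := KOp W X X c) rfl
  choose p hp ζ hζ hζz using hzS
  refine le_pairRank (fun a => W'.corr (W'.cl _ (ζ a))) (fun a => KOp.gen (hp a) (hζ a)) ?_
  intro c' hc'
  funext a₀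
  rw [Pi.zero_apply]
  apply eq_zero_of_ret
  intro ret
  have h1 := hz (fun a => ((ret (c' a) : ℚ) : W.K)) (by
    intro b hb
    induction hb using Submodule.span_induction with
    | mem x hx =>
      obtain ⟨q, hq, ω, hω, rfl⟩ := hx
      choose t ht ht' using fun a => exists_trace_mul hT (hp a) hq (hζ a) hω
      have h2 := hc' _ (KOp.gen (W := W') hq hω)
      rw [trOn_sum_mul] at h2 ⊢
      simp only [ht'] at h2
      simp only [← hζz, ht]
      exact ret_sum ret c' t h2
    | zero => rw [mul_zero, mul_zero, map_zero]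
    | add x y _ _ hx hy => rw [mul_add, mul_add, map_add, hx, hy, add_zero]
    | smul a x _ hx => rw [mul_smul_comm, mul_smul_comm, map_smul, hx, smul_zero])
  have h2 := congrFun h1 a₀
  rw [Pi.zero_apply] at h2
  exact_mod_cast h2

end Pool.Agent.Y106.Rk
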