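import Pool.Agent.Y106.Rk.Defs
import Pool.Agent.Y106.Rk.Adj

/-!
# The ranks of the trace pairings between correspondences
-/

open CategoryTheory AlgebraicGeometry Finset

set_option linter.unusedSectionVars false


universe u₁ v₁ u v

namespace Pool.Agent.Y106.Rk

open Pool.Agent.H914 Pool.Agent.H447 Pool.Agent.W537 Pool.Agent.Y106.One Pool.Agent.Y106.Gen
  VarClass Obj WeilCohomology

variable {k : Type u} [Field k] {𝒱 : VarClass k} {ops : CycleOps 𝒱}
  {W : WeilCohomology.{u, v} ops} {X Y : 𝒱.Obj}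

/-- The operators from `H^(i + 2s)` to `H^(i + 2r)`. -/
noncomputable def blk (W : WeilCohomology.{u, v} ops) (X : 𝒱.Obj) (i : ℕ) (r s : ℕ) :
    Submodule W.K (Module.End W.K (W.H X)) :=
  (KOp W X X ((r : ℤ) - s)).map (LinearMap.mulLeft W.K (proj (W.isInternal X) (i + 2 * r)))

lemma kop_proj {d : ℤ} {u : Module.End W.K (W.H X)} (hu : u ∈ KOp W X X d) {i j : ℕ}
    (hij : (j : ℤ) + 2 * d = i) :
    u * proj (W.isInternal X) j = proj (W.isInternal X) i * u :=
  proj_comp_kop hu hij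

lemma isBlocks (W : WeilCohomology.{u, v} ops) (X : 𝒱.Obj) (i : ℕ) :
    IsBlocks (blk W X i) (fun r => proj (W.isInternal X) (i + 2 * r)) where
  one_mem r := ⟨1, KOp.cast (KOp.id X) (by ring), by
    rw [LinearMap.mulLeft_apply, mul_one]⟩
  mul_mem := by
    rintro r s t _ _ ⟨u, hu, rfl⟩ ⟨v, hv, rfl⟩
    refine ⟨u * v, KOp.cast (KOp.comp hu hv) (by ring), ?_⟩
    have h1 := kop_proj hu (i := i + 2 * r) (j := i + 2 * s) (by push_cast; ring)
    rw [LinearMap.mulLeft_apply, LinearMap.mulLeft_apply, LinearMap.mulLeft_apply,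
      mul_assoc (proj (W.isInternal X) (i + 2 * r)) u, ← mul_assoc u _ v, h1, mul_assoc _ u v,
      ← mul_assoc _ _ (u * v), proj_mul_proj]
  one_mul := by
    rintro r s _ ⟨u, hu, rfl⟩
    rw [LinearMap.mulLeft_apply, ← mul_assoc, proj_mul_proj]
  mul_one := by
    rintro r s _ ⟨u, hu, rfl⟩
    have h1 := kop_proj hu (i := i + 2 * r) (j := i + 2 * s) (by push_cast; ring)
    rw [LinearMap.mulLeft_apply, mul_assoc, h1, ← mul_assoc, proj_mul_proj]

lemma cycOps_eq (W : WeilCohomology.{u, v} ops) (X : 𝒱.Obj) (d : ℤ) :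
    cycOps W X (X.dim + d) = KOp W X X d := by
  apply le_antisymm
  · rw [cycOps, spanOps, Submodule.span_le]
    rintro _ ⟨γ, hγ, rfl⟩
    exact mem_KOp_iff.2 ⟨γ, hγ, rfl⟩
  · intro φ hφ
    obtain ⟨γ, hγ, rfl⟩ := mem_KOp_iff.1 hφ
    exact Submodule.subset_span ⟨γ, hγ, rfl⟩

lemma traceRank_eq (W : WeilCohomology.{u, v} ops) (X : 𝒱.Obj) (i : ℕ) (c : ℤ) :
    traceRank W X i c = pairRank (proj (W.isInternal X) i) (KOp W X X (-c)) (KOp W X X c) := by
  rw [traceRank, rankWith_eq, sub_eq_add_neg, cycOps_eq, cycOps_eq]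

/-- The ranks of the pairings of the blocks. -/
lemma pairRank_blk (i r s : ℕ) :
    pairRank 1 (blk W X i r s) (blk W X i s r) =
      pairRank (proj (W.isInternal X) (i + 2 * r)) (KOp W X X ((r : ℤ) - s))
        (KOp W X X ((s : ℤ) - r)) := by
  have hsurj : ∀ r s : ℕ, Function.Surjective
      (((LinearMap.mulLeft W.K (proj (W.isInternal X) (i + 2 * r))) ∘ₗ
        (KOp W X X ((r : ℤ) - s)).subtype).codRestrict (blk W X i r s)
        (fun a => ⟨a, a.2, rfl⟩)) := by
    rintro r s ⟨_, u, hu, rfl⟩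
    exact ⟨⟨u, hu⟩, rfl⟩
  refine pairRank_map _ (hsurj r s) _ (hsurj s r) ?_
  intro a b
  rw [pair_apply, pair_apply, one_mul]
  change LinearMap.trace W.K (W.H X) ((proj (W.isInternal X) (i + 2 * r) * a) *
    (proj (W.isInternal X) (i + 2 * s) * b)) = _
  have h1 := kop_proj a.2 (i := i + 2 * r) (j := i + 2 * s) (by push_cast; ring)
  rw [← mul_assoc, mul_assoc (proj (W.isInternal X) (i + 2 * r)) (a : Module.End W.K (W.H X)), h1,
    ← mul_assoc, proj_mul_proj, mul_assoc]

/-- The adjoint of correspondences of degree zero. -/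
noncomputable def adjK (W : WeilCohomology.{u, v} ops) (X : 𝒱.Obj) :
    KOp W X X 0 →ₗ[W.K] KOp W X X 0 :=
  (adj W X).restrict (fun _ ha => adj_kop ha)

lemma adjK_coe (u : KOp W X X 0) :
    (adjK W X u : Module.End W.K (W.H X)) = adj W X (u : Module.End W.K (W.H X)) := rfl

lemma trace_adj_adj {i j : ℕ} (hij : i + j = 2 * X.dim) {u v : Module.End W.K (W.H X)}
    (hu : u ∈ KOp W X X 0) (hv : v ∈ KOp W X X 0) :
    LinearMap.trace W.K (W.H X) (proj (W.isInternal X) i * (adj W X u * adj W X v)) =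
      LinearMap.trace W.K (W.H X) (proj (W.isInternal X) j * (u * v)) := by
  have h2 := kop_proj hu (i := j) (j := j) (by ring)
  rw [← adj_proj hij, ← adj_mul, ← adj_mul, trace_adj, mul_assoc v u, LinearMap.trace_mul_comm, h2,
    mul_assoc]

/-- Duality: the rank in degree `2n - i`. -/
lemma pairRank_dual {i j : ℕ} (hij : i + j = 2 * X.dim) :
    pairRank (proj (W.isInternal X) j) (KOp W X X 0) (KOp W X X 0) ≤
      pairRank (proj (W.isInternal X) i) (KOp W X X 0) (KOp W X X 0) := by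
  refine pairRank_le (adjK W X) (fun u h v hv => ?_)
  have h1 := h (adj W X v) (adj_kop hv)
  rw [adjK_coe, trace_adj_adj hij u.2 hv] at h1
  exact h1

/-- The rank for degree `c = n - i` is at most the rank for degree zero, and if they are equal, the
identity on `H^i(X)` factors through `H^(2n - i)(X)`. -/
theorem traceRank_main {i : ℕ} (hi : i ≤ X.dim) :
    traceRank W X i ((X.dim - i : ℕ) : ℤ) ≤ traceRank W X i 0 ∧
    (traceRank W X i 0 ≤ traceRank W X i ((X.dim - i : ℕ) : ℤ) →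
      ∃ γ ∈ KOp W X X (-((X.dim - i : ℕ) : ℤ)), ∃ δ ∈ KOp W X X ((X.dim - i : ℕ) : ℤ),
        ∀ a ∈ W.gr X i, γ (δ a) = a) := by
  set c := X.dim - i with hc
  obtain ⟨h1, h2⟩ := rank_main (isBlocks W X i) 0 c
  have e00 : pairRank 1 (blk W X i 0 0) (blk W X i 0 0) = traceRank W X i 0 := by
    rw [pairRank_blk, traceRank_eq]
    simp
  have e0c : pairRank 1 (blk W X i 0 c) (blk W X i c 0) = traceRank W X i c := by
    rw [pairRank_blk, traceRank_eq]
    simp
  have ec0 : pairRank 1 (blk W X i c 0) (blk W X i 0 c) = traceRank W X i c := by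
    rw [← e0c]
    apply pairRank_comm
    intro a _ b _
    rw [one_mul, one_mul, LinearMap.trace_mul_comm]
  have ecc : pairRank 1 (blk W X i c c) (blk W X i c c) ≤ traceRank W X i 0 := by
    rw [pairRank_blk, traceRank_eq, sub_self, neg_zero]
    exact pairRank_dual (by omega)
  have ecc' : traceRank W X i 0 ≤ pairRank 1 (blk W X i c c) (blk W X i c c) := by
    rw [pairRank_blk, traceRank_eq, sub_self, neg_zero]
    exact pairRank_dual (by omega)
  rw [e00, e0c, ec0] at h1 h2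
  refine ⟨by omega, fun h => ?_⟩
  obtain ⟨z, ⟨γ, hγ, rfl⟩, w, ⟨δ, hδ, rfl⟩, hzw⟩ := h2 (by omega)
  refine ⟨γ, KOp.cast hγ (by push_cast; ring), δ, KOp.cast hδ (by push_cast; ring), ?_⟩
  intro a ha
  have ha' : a ∈ W.gr X (i + 2 * 0) := ha
  have h3 := congrArg (fun F => F a) hzw
  simp only [LinearMap.mulLeft_apply, Module.End.mul_apply] at h3
  have hδa : δ a ∈ W.gr X (i + 2 * c) := by
    have := KOp.isHom hδ i a (by rw [grZ_natCast]; exact ha)
    rwa [show (i : ℤ) + 2 * ((c : ℤ) - (0 : ℕ)) = ((i + 2 * c : ℕ) : ℤ) by push_cast; ring,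
      grZ_natCast] at this
  have hγδa : γ (δ a) ∈ W.gr X (i + 2 * 0) := by
    have := KOp.isHom hγ _ _ (by rw [grZ_natCast]; exact hδa)
    rwa [show ((i + 2 * c : ℕ) : ℤ) + 2 * (((0 : ℕ) : ℤ) - c) = ((i + 2 * 0 : ℕ) : ℤ) by
      push_cast; ring, grZ_natCast] at this
  rw [proj_same _ hδa, proj_same _ hγδa, proj_same _ ha'] at h3
  exact h3

/-- From the equality of the ranks to a combination of cycles inverse to `ξ ^ (n - i)`. -/
theorem injectsLefschetz_of_rank {i : ℕ} (hi : i ≤ X.dim)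
    (h : traceRank W X i 0 ≤ traceRank W X i ((X.dim - i : ℕ) : ℤ)) {D : X.Cycles}
    (hD : X.IsCyc 1 D) (hL : InjectsOn (W.gr X i) (lefPow W X D (X.dim - i))) :
    InjectsLefschetz W X D i := by
  obtain ⟨γ, hγ, δ, hδ, hγδ⟩ := (traceRank_main hi).2 h
  set c := X.dim - i with hc
  have hδm : ∀ a ∈ W.gr X i, δ a ∈ W.gr X (2 * X.dim - i) := by
    intro a ha
    have := KOp.isHom hδ i a (by rw [grZ_natCast]; exact ha)
    rwa [show (i : ℤ) + 2 * (c : ℤ) = ((2 * X.dim - i : ℕ) : ℤ) by omega, grZ_natCast] at this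
  -- `δ` is surjective
  set δ' : W.gr X i →ₗ[W.K] W.gr X (2 * X.dim - i) := δ.restrict hδm with hδ'
  have hinj : Function.Injective δ' := by
    rw [← LinearMap.ker_eq_bot, LinearMap.ker_eq_bot']
    rintro ⟨a, ha⟩ h0
    have h1 : δ a = 0 := congrArg Subtype.val h0
    have h2 := hγδ a ha
    rw [h1, map_zero] at h2
    exact Subtype.ext h2.symm
  have hfin : Module.finrank W.K (W.gr X i) = Module.finrank W.K (W.gr X (2 * X.dim - i)) :=
    le_antisymm (LinearMap.finrank_le_finrank_of_injective hinj)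
      (Pool.Agent.W537.betti_le W (by omega))
  have hsurj : Function.Surjective δ' :=
    (LinearMap.injective_iff_surjective_of_finrank_eq_finrank hfin).1 hinj
  obtain ⟨γ', hγ', rfl⟩ := mem_KOp_iff.1 hγ
  refine ⟨γ', by rwa [show (X.dim : ℤ) + -(c : ℤ) = i by omega] at hγ', ?_⟩
  intro a ha h0
  apply hL a ha
  have hLm : lefPow W X D c a ∈ W.gr X (2 * X.dim - i) := by
    have h1 := pow_L_mem (LL_isHom hD W) ha c
    rw [LinearMap.pow_mulLeft, show i + 2 * c = 2 * X.dim - i by omega] at h1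
    exact h1
  obtain ⟨⟨b, hb⟩, hb'⟩ := hsurj ⟨_, hLm⟩
  have hb2 : δ b = lefPow W X D c a := congrArg Subtype.val hb'
  have h3 : W.corr γ' (lefPow W X D c a) = 0 := h0
  rw [← hb2, hγδ b hb] at h3
  rw [← hb2, h3, map_zero]

end Pool.Agent.Y106.Rk
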